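import Pool.Agent.K3h26.R5.Stm
import Pool.Agent.H817R2.TP.V3

/-!
# Brick V3: lower bound for the density of perturbed diagonal lattices
-/

set_option autoImplicit false

open MeasureTheory Filter Topology Set
open scoped ENNReal

namespace Pool.Agent.K3h77.R5

open H947TP Pool.Agent.K3h26.R5
open H947TP.V3aux (eball_add vol_tr vol_int)

namespace V3aux

/-- the cells -/
def cell {d : ℕ} (s : Fin d → ℝ) (Z : Fin d → ℤ) : Set (Fin d → ℝ) :=
  Set.pi univ fun i => Ico (s i * Z i) (s i * Z i + s i)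

theorem vol_cell {d : ℕ} (s : Fin d → ℝ) (hs : ∀ i, 0 < s i) (Z : Fin d → ℤ) :
    volume (cell s Z) = ENNReal.ofReal (∏ i, s i) := by
  unfold cell
  rw [Real.volume_pi_Ico]
  simp only [add_sub_cancel_left]
  rw [ENNReal.ofReal_prod_of_nonneg fun i _ => (hs i).le]

theorem mem_cell {d : ℕ} (s : Fin d → ℝ) (hs : ∀ i, 0 < s i) (x : Fin d → ℝ) :
    x ∈ cell s (fun i => ⌊x i / s i⌋) := by
  intro i _
  have h1 := Int.floor_le (x i / s i)
  have h2 := Int.lt_floor_add_one (x i / s i)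
  rw [le_div_iff₀ (hs i)] at h1
  rw [div_lt_iff₀ (hs i)] at h2
  constructor
  · linarith
  · linarith

theorem fin_cells {d : ℕ} (s : Fin d → ℝ) (hs : ∀ i, 0 < s i) (R : ℝ) :
    {Z : Fin d → ℤ | (cell s Z ∩ eball d R).Nonempty}.Finite := by
  have hex : ∀ i, ∃ N : ℕ, (|R| + s i) / s i ≤ N := fun i => exists_nat_ge _
  choose N hN using hex
  refine (Set.finite_Icc (fun i : Fin d => -(N i : ℤ)) (fun i => (N i : ℤ))).subset ?_
  rintro Z ⟨x, hx, hxR⟩
  have hxR' : ∑ i, x i ^ 2 ≤ R ^ 2 := hxR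
  have hc : ∀ i, |x i| ≤ |R| := by
    intro i
    rw [← sq_le_sq₀ (abs_nonneg _) (abs_nonneg _), sq_abs, sq_abs]
    exact (Finset.single_le_sum (f := fun i => x i ^ 2) (fun i _ => sq_nonneg _)
      (Finset.mem_univ i)).trans hxR'
  have hZ : ∀ i, -(N i : ℝ) ≤ Z i ∧ (Z i : ℝ) ≤ N i := by
    intro i
    have hN' : |R| + s i ≤ N i * s i := by
      have := hN i
      rwa [div_le_iff₀ (hs i)] at this
    have h1 := hx i (mem_univ i)
    have h2 := abs_le.1 (hc i)
    have h3 : s i * Z i ≤ x i := h1.1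
    have h4 : x i < s i * Z i + s i := h1.2
    have hsi := hs i
    constructor
    · by_contra hcon
      push Not at hcon
      nlinarith
    · by_contra hcon
      push Not at hcon
      nlinarith
  rw [Set.mem_Icc, Pi.le_def, Pi.le_def]
  exact ⟨fun i => by exact_mod_cast (hZ i).1, fun i => by exact_mod_cast (hZ i).2⟩

theorem key {d : ℕ} (K : Set (Fin d → ℝ)) (s : Fin d → ℝ) (C : ℝ)
    (τ : (Fin d → ℤ) → (Fin d → ℝ))
    (hd : 1 ≤ d) (hK : IsCompact K) (hconv : Convex ℝ K) (hs : ∀ i, 0 < s i)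
    (hτ : ∀ Z i, |τ Z i - s i * Z i| ≤ C) (hinj : Function.Injective τ)
    (hpack : IsPacking K (range τ)) :
    ∃ c : ℝ, 0 ≤ c ∧ ∀ R : ℝ, 0 < R →
      volume K / ENNReal.ofReal (∏ i, s i) * volume (eball d R) ≤
        volume (eball d (R + c) ∩ ⋃ x ∈ range τ, tr x K) := by
  classical
  obtain ⟨B, hB⟩ := hK.isBounded.exists_norm_le
  have hC : 0 ≤ C := (abs_nonneg _).trans (hτ 0 ⟨0, hd⟩)
  obtain ⟨S, hS⟩ : ∃ S : ℝ, S = ∑ i, s i := ⟨_, rfl⟩
  have hSi : ∀ i, s i ≤ S := fun i => by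
    rw [hS]
    exact Finset.single_le_sum (f := s) (fun j _ => (hs j).le) (Finset.mem_univ i)
  have hSpos : 0 < S := lt_of_lt_of_le (hs ⟨0, hd⟩) (hSi ⟨0, hd⟩)
  have hprod : 0 < ∏ i, s i := Finset.prod_pos fun i _ => hs i
  have hm : 0 ≤ C + S + |B| := by positivity
  refine ⟨d * (C + S + |B|), by positivity, fun R hR => ?_⟩
  set I : Finset (Fin d → ℤ) := (fin_cells (d := d) s hs R).toFinset with hI
  have hmemI : ∀ Z, Z ∈ I ↔ (cell s Z ∩ eball d R).Nonempty := by
    intro Z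
    rw [hI, Set.Finite.mem_toFinset]
    exact Iff.rfl
  have hS0 : ENNReal.ofReal (∏ i, s i) ≠ 0 := by
    rw [Ne, ENNReal.ofReal_eq_zero, not_le]
    positivity
  have hST : ENNReal.ofReal (∏ i, s i) ≠ ⊤ := ENNReal.ofReal_ne_top
  have hcov : volume (eball d R) ≤ (I.card : ℝ≥0∞) * ENNReal.ofReal (∏ i, s i) := by
    have h1 : eball d R ⊆ ⋃ Z ∈ I, cell s Z := by
      intro x hx
      rw [mem_iUnion₂]
      exact ⟨_, (hmemI _).2 ⟨x, mem_cell s hs x, hx⟩, mem_cell s hs x⟩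
    calc volume (eball d R) ≤ volume (⋃ Z ∈ I, cell s Z) := measure_mono h1
      _ ≤ ∑ Z ∈ I, volume (cell s Z) := measure_biUnion_finset_le _ _
      _ = (I.card : ℝ≥0∞) * ENNReal.ofReal (∏ i, s i) := by
        rw [Finset.sum_congr rfl fun Z _ => vol_cell s hs Z, Finset.sum_const, nsmul_eq_mul]
  have hsub : ∀ Z ∈ I, tr (τ Z) K ⊆ eball d (R + d * (C + S + |B|)) := by
    intro Z hZ y hy
    obtain ⟨x, hx, hxR⟩ := (hmemI Z).1 hZ
    obtain ⟨k, hk, rfl⟩ := hy
    have h2 : (fun z => τ Z + z) k = x + (τ Z + k - x) := by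
      simp
    rw [h2]
    refine eball_add hd hR.le hm hxR fun i => ?_
    have h3 := hx i (mem_univ i)
    have h4 : s i * Z i ≤ x i := h3.1
    have h5 : x i < s i * Z i + s i := h3.2
    have h10 := hSi i
    have h6 : |k i| ≤ |B| := by
      have h7 := norm_le_pi_norm k i
      rw [Real.norm_eq_abs] at h7
      exact h7.trans ((hB k hk).trans (le_abs_self B))
    have h8 := abs_le.1 (hτ Z i)
    have h9 := abs_le.1 h6
    simp only [Pi.add_apply, Pi.sub_apply]
    rw [abs_le]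
    constructor <;> linarith [h8.1, h8.2, h9.1, h9.2]
  have hbig : (I.card : ℝ≥0∞) * volume K ≤
      volume (eball d (R + d * (C + S + |B|)) ∩ ⋃ x ∈ range τ, tr x K) := by
    have h1 : (⋃ Z ∈ I, interior (tr (τ Z) K)) ⊆
        eball d (R + d * (C + S + |B|)) ∩ ⋃ x ∈ range τ, tr x K := by
      intro y hy
      rw [mem_iUnion₂] at hy
      obtain ⟨Z, hZ, hyZ⟩ := hy
      have hy' := interior_subset hyZ
      refine ⟨hsub Z hZ hy', ?_⟩
      rw [mem_iUnion₂]
      exact ⟨τ Z, ⟨Z, rfl⟩, hy'⟩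
    have h2 : volume (⋃ Z ∈ I, interior (tr (τ Z) K)) = (I.card : ℝ≥0∞) * volume K := by
      rw [measure_biUnion_finset]
      · rw [Finset.sum_congr rfl fun Z _ => vol_int (τ Z) K hconv, Finset.sum_const, nsmul_eq_mul]
      · intro Z _ Z' _ hne
        exact hpack _ ⟨Z, rfl⟩ _ ⟨Z', rfl⟩ (hinj.ne hne)
      · intro Z _
        exact isOpen_interior.measurableSet
    rw [← h2]
    exact measure_mono h1
  calc volume K / ENNReal.ofReal (∏ i, s i) * volume (eball d R)
      ≤ volume K / ENNReal.ofReal (∏ i, s i) * ((I.card : ℝ≥0∞) * ENNReal.ofReal (∏ i, s i)) :=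
        mul_le_mul_right hcov _
    _ = (I.card : ℝ≥0∞) * (volume K / ENNReal.ofReal (∏ i, s i) * ENNReal.ofReal (∏ i, s i)) := by ring
    _ = (I.card : ℝ≥0∞) * volume K := by rw [ENNReal.div_mul_cancel hS0 hST]
    _ ≤ _ := hbig

end V3aux

theorem t_V3 : S_V3 := by
  intro d K s C τ hd hK hconv hs hτ hinj hpack
  obtain ⟨c, hc, hkey⟩ := V3aux.key K s C τ hd hK hconv hs hτ hinj hpack
  obtain ⟨hvol, htend⟩ := V1 d c hd hc
  have hinv := tendsto_inv_iff.2 htend
  rw [inv_one] at hinv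
  have hmul := ENNReal.Tendsto.const_mul (a := volume K / ENNReal.ofReal (∏ i, s i)) hinv
    (Or.inl one_ne_zero)
  rw [mul_one] at hmul
  have hshift : density K (range τ) = limsup (fun R : ℝ =>
      volume (eball d (R + c) ∩ ⋃ x ∈ range τ, tr x K) / volume (eball d (R + c))) atTop := by
    unfold density
    have h1 : map (fun R : ℝ => R + c) atTop = atTop := (OrderIso.addRight c).map_atTop
    conv_lhs => rw [← h1]
    rw [limsup, limsup, map_map]
    rfl
  rw [hshift, ← hmul.limsup_eq]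
  refine limsup_le_limsup ?_
  filter_upwards [eventually_gt_atTop (0 : ℝ)] with R hR
  have h1 := hvol R hR
  have h2 := hvol (R + c) (by linarith)
  rw [ENNReal.inv_div (Or.inl h1.2) (Or.inl h1.1), ← mul_div_assoc]
  exact ENNReal.div_le_div_right (hkey R hR) _

end Pool.Agent.K3h77.R5
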